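import Pool.Agent.Y419.Speed.Scale

/-!
# Counting: the class of bipartite graphs without the tree and its bipartite complement is
superfactorial
-/

set_option autoImplicit false

namespace Pool.Agent.Y419.Speed

/-- The number of points. -/
def nn (M : ℕ) : ℕ := 2 ^ (2 * M + 3)

lemma exists_equiv (M : ℕ) :
    Nonempty (Fin (nn M) ≃ Bool × Fin (2 ^ (M + 1)) × Fin (2 ^ (M + 1))) := by
  apply Fintype.card_eq.1
  rw [Fintype.card_fin, Fintype.card_prod, Fintype.card_prod, Fintype.card_fin, Fintype.card_bool]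
  unfold nn
  ring

/-- The position of a vertex. -/
noncomputable def emb (M : ℕ) (i : Fin (nn M)) : Bool × ℕ × ℕ :=
  let e := (exists_equiv M).some i
  (e.1, e.2.1.val, e.2.2.val)

lemma emb_inj (M : ℕ) : Function.Injective (emb M) := by
  intro i j h
  apply (exists_equiv M).some.injective
  unfold emb at h
  simp only [Prod.mk.injEq] at h
  exact Prod.ext h.1 (Prod.ext (Fin.ext h.2.1) (Fin.ext h.2.2))

lemma emb_surj {M : ℕ} (s : Bool) (a : ℕ × ℕ) (h1 : a.1 < 2 ^ (M + 1)) (h2 : a.2 < 2 ^ (M + 1)) :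
    ∃ i, emb M i = (s, a) := by
  refine ⟨(exists_equiv M).some.symm (s, ⟨a.1, h1⟩, ⟨a.2, h2⟩), ?_⟩
  unfold emb
  simp

/-- The graph. -/
noncomputable def GG (M : ℕ) (ω : Par M) : SimpleGraph (Fin (nn M)) where
  Adj i j := hadj (RR M ω) (emb M i) (emb M j)
  symm := ⟨fun _ _ h => h.elim Or.inr Or.inl⟩
  loopless := ⟨fun _ h => hadj_side h rfl⟩

lemma GG_inj (M : ℕ) : Function.Injective (GG M) := by
  intro ω ω' h
  apply RR_inj
  intro a b hab
  by_contra hcon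
  obtain ⟨h1, h2, h3, h4⟩ := RR_bound hab
  obtain ⟨i, hi⟩ := emb_surj (M := M) false a h1 h2
  obtain ⟨j, hj⟩ := emb_surj (M := M) true b h3 h4
  have hsl : SL a b := by
    obtain ⟨l, s, k, rfl, rfl⟩ := hab
    exact (sc_RR ω l s k).sl
  have h5 : (GG M ω').Adj i j := by
    show hadj (RR M ω') (emb M i) (emb M j)
    rw [hadj_lo_hi (by rw [hi]) (by rw [hj]), hi, hj]
    exact ⟨hsl, hcon⟩
  rw [← h] at h5
  have h6 : hadj (RR M ω) (emb M i) (emb M j) := h5
  rw [hadj_lo_hi (by rw [hi]) (by rw [hj]), hi, hj] at h6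
  exact h6.2 hab

lemma GG_colorable (M : ℕ) (ω : Par M) : (GG M ω).Colorable 2 := by
  have h : (GG M ω).Coloring Bool :=
    SimpleGraph.Coloring.mk (fun i => (emb M i).1) (fun {_ _} h => hadj_side h)
  have := h.colorable
  rwa [Fintype.card_bool] at this

lemma GG_no_tree (M : ℕ) (ω : Par M) : IsEmpty (SimpleGraph.Embedding tree (GG M ω)) := by
  classical
  refine ⟨fun φ => ?_⟩
  refine no_tree (R := RR M ω)
    (f := fun i => if h : i < K0 then emb M (φ ⟨i, h⟩) else (false, 0, 0)) (good_RR ω) ?_ ?_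
  · intro i j hi hj h
    simp only [dif_pos hi, dif_pos hj] at h
    have := φ.injective (emb_inj M h)
    exact congrArg Fin.val this
  · intro i j hi hj
    simp only [dif_pos hi, dif_pos hj]
    exact φ.map_adj_iff

lemma GG_no_comp (M : ℕ) (ω : Par M) : IsEmpty (SimpleGraph.Embedding
    (SimpleGraph.fromRel (fun u v : Fin K0 => Odd (tree.dist u v) ∧ ¬ tree.Adj u v)) (GG M ω)) := by
  classical
  refine ⟨fun φ => ?_⟩
  refine no_comp (R := RR M ω)
    (f := fun i => if h : i < K0 then emb M (φ ⟨i, h⟩) else (false, 0, 0)) (good_RR ω) ?_ ?_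
  · intro i j hi hj h
    simp only [dif_pos hi, dif_pos hj] at h
    have := φ.injective (emb_inj M h)
    exact congrArg Fin.val this
  · intro i j hi hj
    simp only [dif_pos hi, dif_pos hj]
    have h1 : hadj (RR M ω) (emb M (φ ⟨i, hi⟩)) (emb M (φ ⟨j, hj⟩)) ↔
        (SimpleGraph.fromRel (fun u v : Fin K0 => Odd (tree.dist u v) ∧ ¬ tree.Adj u v)).Adj
          ⟨i, hi⟩ ⟨j, hj⟩ := φ.map_adj_iff
    rw [h1, SimpleGraph.fromRel_adj, odd_dist, odd_dist]
    have h2 : tree.Adj ⟨i, hi⟩ ⟨j, hj⟩ ↔ TA i j := Iff.rfl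
    have h3 : tree.Adj ⟨j, hj⟩ ⟨i, hi⟩ ↔ TA i j := ⟨fun h => TA.symm h, fun h => TA.symm h⟩
    rw [h2, h3]
    constructor
    · rintro ⟨-, h | h⟩
      · exact h
      · exact ⟨h.1.symm, h.2⟩
    · intro h
      refine ⟨fun h4 => h.1 ?_, Or.inl h⟩
      exact congrArg col (congrArg Fin.val h4)

lemma card_Par (M : ℕ) : Fintype.card (Par M) = ((2 ^ M).factorial) ^ (2 ^ M * (M + 1)) := by
  unfold Par
  rw [Fintype.card_fun, Fintype.card_fun, Fintype.card_perm, Fintype.card_fin, Fintype.card_fin,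
    ← pow_mul]

lemma fact_lower (M : ℕ) : 2 ^ (M * 2 ^ M) ≤ (2 ^ (M + 1)).factorial := by
  have h1 := Nat.factorial_mul_pow_le_factorial (m := 2 ^ M) (n := 2 ^ M)
  have h2 : 2 ^ M + 2 ^ M = 2 ^ (M + 1) := by ring
  rw [h2] at h1
  calc 2 ^ (M * 2 ^ M) = (2 ^ M) ^ (2 ^ M) := by rw [pow_mul]
    _ ≤ (2 ^ M + 1) ^ (2 ^ M) := Nat.pow_le_pow_left (Nat.le_succ _) _
    _ ≤ (2 ^ M).factorial * (2 ^ M + 1) ^ (2 ^ M) :=
        Nat.le_mul_of_pos_left _ (Nat.factorial_pos _)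
    _ ≤ _ := h1

/-- For every `C` there are more than `(n + 1) ^ (C n)` parameters. -/
lemma many (C : ℕ) : ∃ M, (nn M + 1) ^ (C * nn M) < Fintype.card (Par M) := by
  -- M = M' + 1 with M' = 64 C + 10
  obtain ⟨M', hM'⟩ : ∃ M', M' = 64 * C + 10 := ⟨_, rfl⟩
  refine ⟨M' + 1, ?_⟩
  rw [card_Par]
  have h1 : nn (M' + 1) + 1 ≤ 2 ^ (2 * M' + 6) := by
    unfold nn
    have h2 : 2 ^ (2 * M' + 6) = 2 ^ (2 * (M' + 1) + 3) + 2 ^ (2 * (M' + 1) + 3) := by ring
    have h3 : 1 ≤ 2 ^ (2 * (M' + 1) + 3) := Nat.one_le_two_pow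
    omega
  have hn : nn (M' + 1) = 32 * (2 ^ M' * 2 ^ M') := by
    unfold nn
    ring
  calc (nn (M' + 1) + 1) ^ (C * nn (M' + 1))
      ≤ (2 ^ (2 * M' + 6)) ^ (C * nn (M' + 1)) := Nat.pow_le_pow_left h1 _
    _ = 2 ^ ((2 * M' + 6) * (C * nn (M' + 1))) := by rw [← pow_mul]
    _ < 2 ^ ((M' * 2 ^ M') * (2 ^ (M' + 1) * (M' + 1 + 1))) := by
        apply Nat.pow_lt_pow_right (by norm_num)
        rw [hn]
        have h4 : (2 * M' + 6) * (C * (32 * (2 ^ M' * 2 ^ M'))) =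
            ((2 * M' + 6) * C * 32) * (2 ^ M' * 2 ^ M') := by ring
        have h5 : (M' * 2 ^ M') * (2 ^ (M' + 1) * (M' + 1 + 1)) =
            (2 * M' * (M' + 2)) * (2 ^ M' * 2 ^ M') := by ring
        rw [h4, h5]
        apply Nat.mul_lt_mul_of_pos_right _ (by positivity)
        subst hM'
        nlinarith
    _ = (2 ^ (M' * 2 ^ M')) ^ (2 ^ (M' + 1) * (M' + 1 + 1)) := by rw [← pow_mul]
    _ ≤ _ := Nat.pow_le_pow_left (fact_lower M') _

/-- The main theorem: the class of bipartite graphs without an induced copy of `tree` and of its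
bipartite complement is not at most factorial. -/
theorem main (C : ℕ) : ∃ n : ℕ, (n + 1) ^ (C * n) < Set.ncard {G : SimpleGraph (Fin n) |
    G.Colorable 2 ∧
    IsEmpty (SimpleGraph.Embedding tree G) ∧
    IsEmpty (SimpleGraph.Embedding
      (SimpleGraph.fromRel (fun u v : Fin K0 => Odd (tree.dist u v) ∧ ¬ tree.Adj u v)) G)} := by
  obtain ⟨M, hM⟩ := many C
  refine ⟨nn M, lt_of_lt_of_le hM ?_⟩
  rw [← Nat.card_eq_fintype_card, ← Set.ncard_univ, ← Set.ncard_image_of_injective _ (GG_inj M)]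
  apply Set.ncard_le_ncard _ (Set.toFinite _)
  rintro _ ⟨ω, -, rfl⟩
  exact ⟨GG_colorable M ω, GG_no_tree M ω, GG_no_comp M ω⟩

end Pool.Agent.Y419.Speed
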