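import Pool.Agent.Y419.Speed.Emb

/-!
# The host graph minus a good relation does not contain the bipartite complement of the tree
-/

set_option autoImplicit false

namespace Pool.Agent.Y419.Speed

lemma col_small : col 10 = false ∧ col 19 = false ∧ col 28 = false ∧
    col 91 = true ∧ col 172 = true ∧ col 253 = true := by
  refine ⟨?_, ?_, ?_, ?_, ?_, ?_⟩ <;> simp [col]

/-- For every colour there are three vertices with this colour below `K0` such that every vertex is
adjacent to at most one of them. -/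
lemma three_wit (s : Bool) : ∃ w : Fin 3 → ℕ, (∀ i, w i < K0 ∧ col (w i) = s) ∧
    ∀ u i j, TA u (w i) → TA u (w j) → i = j := by
  have hK : K0 = 1000000 := rfl
  obtain ⟨h1, h2, h3, h4, h5, h6⟩ := col_small
  cases s
  · refine ⟨![10, 19, 28], ?_, ?_⟩
    · intro i
      fin_cases i
      · exact ⟨by show 10 < K0; omega, h1⟩
      · exact ⟨by show 19 < K0; omega, h2⟩
      · exact ⟨by show 28 < K0; omega, h3⟩
    · intro u i j
      unfold TA
      fin_cases i <;> fin_cases j <;> simp <;> omega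
  · refine ⟨![91, 172, 253], ?_, ?_⟩
    · intro i
      fin_cases i
      · exact ⟨by show 91 < K0; omega, h4⟩
      · exact ⟨by show 172 < K0; omega, h5⟩
      · exact ⟨by show 253 < K0; omega, h6⟩
    · intro u i j
      unfold TA
      fin_cases i <;> fin_cases j <;> simp <;> omega

/-- For all `u`, `v` there is a vertex of the given colour adjacent to neither. -/
lemma wit (s : Bool) (u v : ℕ) : ∃ w, w < K0 ∧ col w = s ∧ ¬ TA u w ∧ ¬ TA v w := by
  obtain ⟨w, h1, h2⟩ := three_wit s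
  by_contra hcon
  push Not at hcon
  have h3 : ∀ i, TA u (w i) ∨ TA v (w i) := by
    intro i
    by_cases h : TA u (w i)
    · exact Or.inl h
    · exact Or.inr (hcon (w i) (h1 i).1 (h1 i).2 h)
  have e01 : (0 : Fin 3) ≠ 1 := by decide
  have e02 : (0 : Fin 3) ≠ 2 := by decide
  have e12 : (1 : Fin 3) ≠ 2 := by decide
  rcases h3 0 with a0 | a0 <;> rcases h3 1 with a1 | a1 <;> rcases h3 2 with a2 | a2
  · exact e01 (h2 u 0 1 a0 a1)
  · exact e01 (h2 u 0 1 a0 a1)
  · exact e02 (h2 u 0 2 a0 a2)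
  · exact e12 (h2 v 1 2 a1 a2)
  · exact e12 (h2 u 1 2 a1 a2)
  · exact e02 (h2 v 0 2 a0 a2)
  · exact e01 (h2 v 0 1 a0 a1)
  · exact e01 (h2 v 0 1 a0 a1)

/-- There is no cycle of length four. -/
lemma no_four {a b c d : ℕ} (h1 : TA a b) (h2 : TA b c) (h3 : TA c d) (h4 : TA d a) (h5 : a ≠ c)
    (h6 : b ≠ d) : False := by
  unfold TA at *
  omega

section TheoremB

variable {R : ℕ × ℕ → ℕ × ℕ → Prop} {f : ℕ → Bool × ℕ × ℕ}
  (hR : Good R) (hinj : ∀ i j, i < K0 → j < K0 → f i = f j → i = j)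
  (hf : ∀ i j, i < K0 → j < K0 → (hadj R (f i) (f j) ↔ (col i ≠ col j ∧ ¬ TA i j)))

include hf in
lemma side_same {i j : ℕ} (hi : i < K0) (hj : j < K0) (h : col i = col j) :
    (f i).1 = (f j).1 := by
  obtain ⟨w, hw, h1, h2, h3⟩ := wit (!(col i)) i j
  have h4 : (f i).1 ≠ (f w).1 := hadj_side ((hf i w hi hw).2 ⟨by rw [h1]; simp, h2⟩)
  have h5 : (f j).1 ≠ (f w).1 := hadj_side ((hf j w hj hw).2 ⟨by rw [h1, h]; simp, h3⟩)
  revert h4 h5
  cases (f i).1 <;> cases (f j).1 <;> cases (f w).1 <;> simp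

include hf in
lemma side_diff {i j : ℕ} (hi : i < K0) (hj : j < K0) (h : col i ≠ col j) :
    (f i).1 ≠ (f j).1 := by
  obtain ⟨w, hw, h1, h2, h3⟩ := wit (col j) i i
  have h4 : (f i).1 ≠ (f w).1 := hadj_side ((hf i w hi hw).2 ⟨by rw [h1]; exact h, h2⟩)
  rw [← side_same hf hw hj h1]
  exact h4

include hf in
lemma col_diff {i j : ℕ} (hi : i < K0) (hj : j < K0) (h : (f i).1 ≠ (f j).1) :
    col i ≠ col j := fun h2 => h (side_same hf hi hj h2)

include hf in
/-- A pair which is not comparable is an edge of the tree. -/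
lemma TA_of_not_SL {i j : ℕ} (hi : i < K0) (hj : j < K0) (h1 : (f i).1 = false)
    (h2 : (f j).1 = true) (h : ¬ SL (f i).2 (f j).2) : TA i j := by
  by_contra hcon
  apply h
  have h3 := (hf i j hi hj).2 ⟨col_diff hf hi hj (by rw [h1, h2]; decide), hcon⟩
  exact ((hadj_lo_hi h1 h2).1 h3).1

include hf in
lemma R_of_TA {i j : ℕ} (hi : i < K0) (hj : j < K0) (h1 : (f i).1 = false)
    (h2 : (f j).1 = true) (h : TA i j) (h3 : SL (f i).2 (f j).2) : R (f i).2 (f j).2 := by
  by_contra hcon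
  have h4 := (hf i j hi hj).1 ((hadj_lo_hi h1 h2).2 ⟨h3, hcon⟩)
  exact h4.2 h

include hf in
lemma side_child' {i j : ℕ} (hi : i < K0) (hj : j < K0) (h : TA i j) {s : Bool}
    (h1 : (f j).1 = s) : (f i).1 = !s := by
  have h2 := side_diff hf hi hj (col_TA h)
  rw [h1] at h2
  revert h2
  cases (f i).1 <;> cases s <;> simp

/-- A set of at most one element of each of four kinds leaves three of nine. -/
lemma three_clean (A B C D : Fin 9 → Prop) (hA : ∀ i j, A i → A j → i = j)
    (hB : ∀ i j, B i → B j → i = j) (hC : ∀ i j, C i → C j → i = j)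
    (hD : ∀ i j, D i → D j → i = j) :
    ∃ g : Fin 3 → Fin 9, Function.Injective g ∧
      ∀ t, ¬ A (g t) ∧ ¬ B (g t) ∧ ¬ C (g t) ∧ ¬ D (g t) := by
  classical
  have key : ∀ P : Fin 9 → Prop, (∀ i j, P i → P j → i = j) → (Finset.univ.filter P).card ≤ 1 := by
    intro P hP
    rw [Finset.card_le_one]
    intro a ha b hb
    rw [Finset.mem_filter] at ha hb
    exact hP a b ha.2 hb.2
  have hcard : 3 ≤ (Finset.univ.filter (fun i => ¬ A i ∧ ¬ B i ∧ ¬ C i ∧ ¬ D i)).card := by
    have h1 : (Finset.univ : Finset (Fin 9)) ⊆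
        Finset.univ.filter (fun i => ¬ A i ∧ ¬ B i ∧ ¬ C i ∧ ¬ D i) ∪
        (Finset.univ.filter A ∪ (Finset.univ.filter B ∪ (Finset.univ.filter C ∪
          Finset.univ.filter D))) := by
      intro i _
      simp only [Finset.mem_union, Finset.mem_filter, Finset.mem_univ, true_and]
      tauto
    have h2 := Finset.card_le_card h1
    have h3 := Finset.card_union_le (Finset.univ.filter (fun i => ¬ A i ∧ ¬ B i ∧ ¬ C i ∧ ¬ D i))
      (Finset.univ.filter A ∪ (Finset.univ.filter B ∪ (Finset.univ.filter C ∪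
          Finset.univ.filter D)))
    have h4 := Finset.card_union_le (Finset.univ.filter A)
      (Finset.univ.filter B ∪ (Finset.univ.filter C ∪ Finset.univ.filter D))
    have h5 := Finset.card_union_le (Finset.univ.filter B)
      (Finset.univ.filter C ∪ Finset.univ.filter D)
    have h6 := Finset.card_union_le (Finset.univ.filter C) (Finset.univ.filter D)
    have := key A hA
    have := key B hB
    have := key C hC
    have := key D hD
    rw [Finset.card_univ, Fintype.card_fin] at h2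
    omega
  obtain ⟨s, hs, hc⟩ := Finset.exists_subset_card_eq hcard
  refine ⟨s.orderEmbOfFin hc, (s.orderEmbOfFin hc).injective, fun t => ?_⟩
  have h1 := hs (Finset.orderEmbOfFin_mem s hc t)
  rw [Finset.mem_filter] at h1
  exact h1.2

include hR hinj hf in
/-- The host graph does not contain the bipartite complement of the tree. -/
theorem no_comp : False := by
  classical
  have hK : K0 = 1000000 := rfl
  obtain ⟨r, hr1, hrs⟩ : ∃ r, r ≤ 1 ∧ (f r).1 = false := by
    by_cases h : (f 0).1 = false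
    · exact ⟨0, by omega, h⟩
    · refine ⟨1, le_refl _, ?_⟩
      have h1 : (f 0).1 = true := by simpa using h
      exact side_child' hf (by omega) (by omega) (Or.inl ⟨by omega, by omega⟩) h1
  -- an upper vertex
  have hu1 : (f (9 * r + 1)).1 = true :=
    side_child' hf (by omega) (by omega) (Or.inl ⟨by omega, by omega⟩) hrs
  -- extremal vertices
  set Lo := (Finset.range K0).filter (fun i => (f i).1 = false) with hLo
  set Up := (Finset.range K0).filter (fun i => (f i).1 = true) with hUp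
  have hLo1 : Lo.Nonempty := ⟨r, by rw [hLo, Finset.mem_filter, Finset.mem_range]; exact ⟨by omega, hrs⟩⟩
  have hUp1 : Up.Nonempty :=
    ⟨9 * r + 1, by rw [hUp, Finset.mem_filter, Finset.mem_range]; exact ⟨by omega, hu1⟩⟩
  obtain ⟨a1, ha1, ha1'⟩ := Finset.exists_max_image Lo (fun i => (f i).2.1) hLo1
  obtain ⟨a2, ha2, ha2'⟩ := Finset.exists_max_image Lo (fun i => (f i).2.2) hLo1
  obtain ⟨b1, hb1, hb1'⟩ := Finset.exists_min_image Up (fun i => (f i).2.1) hUp1
  obtain ⟨b2, hb2, hb2'⟩ := Finset.exists_min_image Up (fun i => (f i).2.2) hUp1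
  have mLo : ∀ i, i ∈ Lo ↔ i < K0 ∧ (f i).1 = false := by
    intro i; rw [hLo, Finset.mem_filter, Finset.mem_range]
  have mUp : ∀ i, i ∈ Up ↔ i < K0 ∧ (f i).1 = true := by
    intro i; rw [hUp, Finset.mem_filter, Finset.mem_range]
  -- incomparable pairs touch an extremal vertex
  have hSL : ∀ u w, u ∈ Lo → w ∈ Up → u ≠ a1 → u ≠ a2 → w ≠ b1 → w ≠ b2 →
      SL (f u).2 (f w).2 := by
    intro u w hu hw h1 h2 h3 h4
    rw [mLo] at hu ha1 ha2
    rw [mUp] at hw hb1 hb2
    by_contra hcon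
    have hcon' : (f w).2.1 ≤ (f u).2.1 ∨ (f w).2.2 ≤ (f u).2.2 := by
      by_contra hc
      push Not at hc
      exact hcon hc
    rcases hcon' with hc | hc
    · have e1 : (f u).2.1 ≤ (f a1).2.1 := ha1' u ((mLo u).2 hu)
      have e2 : (f b1).2.1 ≤ (f w).2.1 := hb1' w ((mUp w).2 hw)
      have t1 := TA_of_not_SL hf hu.1 hw.1 hu.2 hw.2 hcon
      have t2 := TA_of_not_SL hf ha1.1 hw.1 ha1.2 hw.2 (fun h => by
        have := h.1; omega)
      have t3 := TA_of_not_SL hf ha1.1 hb1.1 ha1.2 hb1.2 (fun h => by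
        have := h.1; omega)
      have t4 := TA_of_not_SL hf hu.1 hb1.1 hu.2 hb1.2 (fun h => by
        have := h.1; omega)
      exact no_four t1 t2.symm t3 t4.symm h1 h3
    · have e1 : (f u).2.2 ≤ (f a2).2.2 := ha2' u ((mLo u).2 hu)
      have e2 : (f b2).2.2 ≤ (f w).2.2 := hb2' w ((mUp w).2 hw)
      have t1 := TA_of_not_SL hf hu.1 hw.1 hu.2 hw.2 hcon
      have t2 := TA_of_not_SL hf ha2.1 hw.1 ha2.2 hw.2 (fun h => by
        have := h.2; omega)
      have t3 := TA_of_not_SL hf ha2.1 hb2.1 ha2.2 hb2.2 (fun h => by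
        have := h.2; omega)
      have t4 := TA_of_not_SL hf hu.1 hb2.1 hu.2 hb2.2 (fun h => by
        have := h.2; omega)
      exact no_four t1 t2.symm t3 t4.symm h2 h4
  -- a centre which is not extremal
  obtain ⟨x, hx1, hxs, hxa1, hxa2⟩ : ∃ x, x ≤ 2000 ∧ (f x).1 = false ∧ x ≠ a1 ∧ x ≠ a2 := by
    have hg : ∀ y, y ≤ 18 → (f y).1 = true → ∀ z, (z - 1) / 9 = y → 0 < z → z ≤ 2000 →
        (f z).1 = false := by
      intro y hy1 hy2 z hz1 hz2 hz3
      exact side_child' hf (by omega) (by omega) (Or.inl ⟨hz2, hz1⟩) hy2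
    have hz1 : (f (9 * (9 * r + 1) + 1)).1 = false :=
      hg (9 * r + 1) (by omega) hu1 _ (by omega) (by omega) (by omega)
    have hz2 : (f (9 * (9 * r + 1) + 2)).1 = false :=
      hg (9 * r + 1) (by omega) hu1 _ (by omega) (by omega) (by omega)
    by_cases c1 : r ≠ a1 ∧ r ≠ a2
    · exact ⟨r, by omega, hrs, c1⟩
    by_cases c2 : 9 * (9 * r + 1) + 1 ≠ a1 ∧ 9 * (9 * r + 1) + 1 ≠ a2
    · exact ⟨_, by omega, hz1, c2⟩
    · refine ⟨9 * (9 * r + 1) + 2, by omega, hz2, ?_, ?_⟩ <;> omega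
  -- three clean branches
  obtain ⟨g, hg, hg2⟩ := three_clean (fun j => 9 * x + 1 + (j : ℕ) = b1)
    (fun j => 9 * x + 1 + (j : ℕ) = b2) (fun j => 9 * (9 * x + 1 + (j : ℕ)) + 1 = a1)
    (fun j => 9 * (9 * x + 1 + (j : ℕ)) + 1 = a2)
    (fun i j h h' => Fin.ext (by omega)) (fun i j h h' => Fin.ext (by omega))
    (fun i j h h' => Fin.ext (by omega)) (fun i j h h' => Fin.ext (by omega))
  obtain ⟨w, hw⟩ : ∃ w : Fin 3 → ℕ, ∀ t, w t = 9 * x + 1 + (g t : ℕ) := ⟨_, fun _ => rfl⟩
  have hwK : ∀ t, w t ≤ 30000 := by intro t; rw [hw t]; omega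
  have hwT : ∀ t, TA (w t) x := fun t => Or.inl (by rw [hw t]; omega)
  have hws : ∀ t, (f (w t)).1 = true := fun t => by
    have := side_child' hf (by have := hwK t; omega) (by omega) (hwT t) hxs
    simpa using this
  have hzT : ∀ t, TA (9 * w t + 1) (w t) := fun t => Or.inl (by omega)
  have hzs : ∀ t, (f (9 * w t + 1)).1 = false := fun t => by
    have := side_child' hf (by have := hwK t; omega) (by have := hwK t; omega) (hzT t) (hws t)
    simpa using this
  have hxLo : x ∈ Lo := (mLo x).2 ⟨by omega, hxs⟩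
  have hwUp : ∀ t, w t ∈ Up := fun t => (mUp _).2 ⟨by have := hwK t; omega, hws t⟩
  have hzLo : ∀ t, 9 * w t + 1 ∈ Lo := fun t => (mLo _).2 ⟨by have := hwK t; omega, hzs t⟩
  have hwb : ∀ t, w t ≠ b1 ∧ w t ≠ b2 := fun t => by
    rw [hw t]
    exact ⟨(hg2 t).1, (hg2 t).2.1⟩
  have hza : ∀ t, 9 * w t + 1 ≠ a1 ∧ 9 * w t + 1 ≠ a2 := fun t => by
    rw [hw t]
    exact ⟨(hg2 t).2.2.1, (hg2 t).2.2.2⟩
  have S1 : ∀ t, SL (f x).2 (f (w t)).2 := fun t =>
    hSL x (w t) hxLo (hwUp t) hxa1 hxa2 (hwb t).1 (hwb t).2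
  have S2 : ∀ t t', SL (f (9 * w t + 1)).2 (f (w t')).2 := fun t t' =>
    hSL _ _ (hzLo t) (hwUp t') (hza t).1 (hza t).2 (hwb t').1 (hwb t').2
  refine hR.xa (f x).2 (fun t => (f (w t)).2) ?_ ?_ ?_
  · intro t t' h
    have h1 := hinj (w t) (w t') (by have := hwK t; omega) (by have := hwK t'; omega)
      (Prod.ext ((hws t).trans (hws t').symm) h)
    rw [hw t, hw t'] at h1
    exact hg (Fin.ext (by omega))
  · intro t
    exact R_of_TA hf (by omega) (by have := hwK t; omega) hxs (hws t) (hwT t).symm (S1 t)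
  · intro t
    refine ⟨(f (9 * w t + 1)).2, ?_, ?_, fun t' => S2 t t'⟩
    · intro h
      have h1 := hinj (9 * w t + 1) x (by have := hwK t; omega) (by omega)
        (Prod.ext ((hzs t).trans hxs.symm) h)
      rw [hw t] at h1
      omega
    · exact R_of_TA hf (by have := hwK t; omega) (by have := hwK t; omega) (hzs t) (hws t)
        (hzT t) (S2 t t)

end TheoremB

end Pool.Agent.Y419.Speed
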