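import Mathlib

/-!
# Superfactorial classes of bipartite graphs without a tree and its bipartite complement: order lemmas
-/

set_option autoImplicit false

namespace Pool.Agent.Y419.Speed

/-- Strictly smaller in both coordinates. -/
def SL {L : Type} [LinearOrder L] (a b : L × L) : Prop := a.1 < b.1 ∧ a.2 < b.2

lemma card_few {L : Type} [LinearOrder L] (x : Fin 5 → L) :
    (Finset.univ.filter (fun i : Fin 5 =>
      (Finset.univ.filter (fun j : Fin 5 => j ≠ i ∧ x j ≤ x i)).card ≤ 1)).card ≤ 2 := by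
  classical
  by_contra hcon
  push Not at hcon
  set B := Finset.univ.filter (fun i : Fin 5 =>
      (Finset.univ.filter (fun j : Fin 5 => j ≠ i ∧ x j ≤ x i)).card ≤ 1) with hB
  have hne : B.Nonempty := Finset.card_pos.1 (by omega)
  obtain ⟨m, hm, hmax⟩ := Finset.exists_max_image B x hne
  have h1 : B.erase m ⊆ Finset.univ.filter (fun j : Fin 5 => j ≠ m ∧ x j ≤ x m) := by
    intro j hj
    rw [Finset.mem_erase] at hj
    rw [Finset.mem_filter]
    exact ⟨Finset.mem_univ _, hj.1, hmax j hj.2⟩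
  have h2 := Finset.card_le_card h1
  rw [Finset.card_erase_of_mem hm] at h2
  have h3 : (Finset.univ.filter (fun j : Fin 5 => j ≠ m ∧ x j ≤ x m)).card ≤ 1 := by
    rw [hB, Finset.mem_filter] at hm
    exact hm.2
  omega

lemma exists_two {L : Type} [LinearOrder L] (x y : Fin 5 → L) :
    ∃ i : Fin 5, (∃ j j' : Fin 5, j ≠ j' ∧ j ≠ i ∧ j' ≠ i ∧ x j ≤ x i ∧ x j' ≤ x i) ∧
      (∃ j j' : Fin 5, j ≠ j' ∧ j ≠ i ∧ j' ≠ i ∧ y j ≤ y i ∧ y j' ≤ y i) := by
  classical
  have hx := card_few x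
  have hy := card_few y
  set Bx := Finset.univ.filter (fun i : Fin 5 =>
      (Finset.univ.filter (fun j : Fin 5 => j ≠ i ∧ x j ≤ x i)).card ≤ 1) with hBx
  set By := Finset.univ.filter (fun i : Fin 5 =>
      (Finset.univ.filter (fun j : Fin 5 => j ≠ i ∧ y j ≤ y i)).card ≤ 1) with hBy
  have h1 : (Bx ∪ By).card ≤ 4 := (Finset.card_union_le _ _).trans (by omega)
  obtain ⟨i, hi⟩ : ∃ i : Fin 5, i ∉ Bx ∪ By := by
    by_contra hcon
    push Not at hcon
    have : Finset.univ ⊆ Bx ∪ By := fun i _ => hcon i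
    have := Finset.card_le_card this
    simp at this
    omega
  rw [Finset.mem_union, not_or] at hi
  refine ⟨i, ?_, ?_⟩
  · have h2 := hi.1
    rw [hBx, Finset.mem_filter, not_and] at h2
    have h3 := h2 (Finset.mem_univ _)
    push Not at h3
    obtain ⟨j, hj, j', hj', hne⟩ := Finset.one_lt_card.1 h3
    rw [Finset.mem_filter] at hj hj'
    exact ⟨j, j', hne, hj.2.1, hj'.2.1, hj.2.2, hj'.2.2⟩
  · have h2 := hi.2
    rw [hBy, Finset.mem_filter, not_and] at h2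
    have h3 := h2 (Finset.mem_univ _)
    push Not at h3
    obtain ⟨j, hj, j', hj', hne⟩ := Finset.one_lt_card.1 h3
    rw [Finset.mem_filter] at hj hj'
    exact ⟨j, j', hne, hj.2.1, hj'.2.1, hj.2.2, hj'.2.2⟩

lemma three_of_five (P Q : Fin 5 → Prop) (h : ∀ t, P t ∨ Q t) :
    (∃ g : Fin 3 → Fin 5, Function.Injective g ∧ ∀ t, P (g t)) ∨
      (∃ g : Fin 3 → Fin 5, Function.Injective g ∧ ∀ t, Q (g t)) := by
  classical
  have key : ∀ P : Fin 5 → Prop, 3 ≤ (Finset.univ.filter P).card →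
      ∃ g : Fin 3 → Fin 5, Function.Injective g ∧ ∀ t, P (g t) := by
    intro P hP
    obtain ⟨s, hs, hc⟩ := Finset.exists_subset_card_eq hP
    refine ⟨s.orderEmbOfFin hc, (s.orderEmbOfFin hc).injective, fun t => ?_⟩
    have h1 := hs (Finset.orderEmbOfFin_mem s hc t)
    rw [Finset.mem_filter] at h1
    exact h1.2
  have h1 : (Finset.univ : Finset (Fin 5)) ⊆ Finset.univ.filter P ∪ Finset.univ.filter Q := by
    intro t _
    rw [Finset.mem_union, Finset.mem_filter, Finset.mem_filter]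
    rcases h t with h | h
    · exact Or.inl ⟨Finset.mem_univ _, h⟩
    · exact Or.inr ⟨Finset.mem_univ _, h⟩
  have h2 := (Finset.card_le_card h1).trans (Finset.card_union_le _ _)
  rw [Finset.card_univ, Fintype.card_fin] at h2
  rcases Nat.lt_or_ge (Finset.univ.filter P).card 3 with h3 | h3
  · exact Or.inr (key Q (by omega))
  · exact Or.inl (key P h3)

/-- The order lemma: five points `m i` below `c`.  There is an `i` such that for any five points
above `m i`, either one of them is below `c`, or three of them are above two further points `m j`,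
`m j'`. -/
lemma core {L : Type} [LinearOrder L] (m : Fin 5 → L × L) (c : L × L) (hm : ∀ i, SL (m i) c) :
    ∃ i : Fin 5, ∀ B : Fin 5 → L × L, (∀ t, SL (m i) (B t)) →
      (∃ t, SL (B t) c) ∨
      ∃ j j' : Fin 5, j ≠ j' ∧ j ≠ i ∧ j' ≠ i ∧ ∃ g : Fin 3 → Fin 5, Function.Injective g ∧
        ∀ t, SL (m j) (B (g t)) ∧ SL (m j') (B (g t)) := by
  obtain ⟨i, ⟨j1, j1', h1, h2, h3, h4, h5⟩, ⟨j2, j2', h6, h7, h8, h9, h10⟩⟩ :=
    exists_two (fun i => (m i).1) (fun i => (m i).2)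
  refine ⟨i, fun B hB => ?_⟩
  by_cases hc : ∃ t, SL (B t) c
  · exact Or.inl hc
  right
  push Not at hc
  have h11 : ∀ t, c.1 ≤ (B t).1 ∨ c.2 ≤ (B t).2 := by
    intro t
    by_contra hcon
    push Not at hcon
    exact hc t hcon
  rcases three_of_five _ _ h11 with ⟨g, hg, hg2⟩ | ⟨g, hg, hg2⟩
  · refine ⟨j2, j2', h6, h7, h8, g, hg, fun t => ⟨⟨?_, ?_⟩, ⟨?_, ?_⟩⟩⟩
    · exact lt_of_lt_of_le (hm j2).1 (hg2 t)
    · exact lt_of_le_of_lt h9 (hB (g t)).2
    · exact lt_of_lt_of_le (hm j2').1 (hg2 t)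
    · exact lt_of_le_of_lt h10 (hB (g t)).2
  · refine ⟨j1, j1', h1, h2, h3, g, hg, fun t => ⟨⟨?_, ?_⟩, ⟨?_, ?_⟩⟩⟩
    · exact lt_of_le_of_lt h4 (hB (g t)).1
    · exact lt_of_lt_of_le (hm j1).2 (hg2 t)
    · exact lt_of_le_of_lt h5 (hB (g t)).1
    · exact lt_of_lt_of_le (hm j1').2 (hg2 t)

/-- The dual order lemma. -/
lemma core_dual (m : Fin 5 → ℕ × ℕ) (c : ℕ × ℕ) (hm : ∀ i, SL c (m i)) :
    ∃ i : Fin 5, ∀ B : Fin 5 → ℕ × ℕ, (∀ t, SL (B t) (m i)) →
      (∃ t, SL c (B t)) ∨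
      ∃ j j' : Fin 5, j ≠ j' ∧ j ≠ i ∧ j' ≠ i ∧ ∃ g : Fin 3 → Fin 5, Function.Injective g ∧
        ∀ t, SL (B (g t)) (m j) ∧ SL (B (g t)) (m j') :=
  core (L := ℕᵒᵈ) m c hm

end Pool.Agent.Y419.Speed
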