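import Mathlib

/-!
# The complete tree with nine children at every vertex, with heap numbering
-/

set_option autoImplicit false

namespace Pool.Agent.Y419.Speed

/-- Adjacency of the infinite heap tree: one of the two numbers is the parent of the other one. -/
def TA (i j : ℕ) : Prop := (0 < i ∧ (i - 1) / 9 = j) ∨ (0 < j ∧ (j - 1) / 9 = i)

lemma TA.symm {i j : ℕ} (h : TA i j) : TA j i := h.elim Or.inr Or.inl

lemma TA_ne {i j : ℕ} (h : TA i j) : i ≠ j := by
  rcases h with ⟨h1, h2⟩ | ⟨h1, h2⟩ <;> omega

/-- The number of vertices of the tree. -/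
def K0 : ℕ := 1000000

/-- The tree. -/
def tree : SimpleGraph (Fin K0) where
  Adj i j := TA i.val j.val
  symm := ⟨fun _ _ h => h.symm⟩
  loopless := ⟨fun _ h => TA_ne h rfl⟩

lemma reach (n : ℕ) (hn : n < K0) : tree.Reachable ⟨n, hn⟩ ⟨0, by unfold K0; omega⟩ := by
  induction n using Nat.strong_induction_on with
  | _ n ih =>
    rcases Nat.eq_zero_or_pos n with h | h
    · subst h; exact SimpleGraph.Reachable.refl _
    · have h1 : (n - 1) / 9 < n := by omega
      have h2 : tree.Adj ⟨n, hn⟩ ⟨(n - 1) / 9, by omega⟩ := Or.inl ⟨h, rfl⟩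
      exact h2.reachable.trans (ih _ h1 (by omega))

lemma tree_isTree : tree.IsTree := by
  classical
  rw [SimpleGraph.isTree_iff_connected_and_card]
  refine ⟨?_, ?_⟩
  · have : Nonempty (Fin K0) := ⟨⟨0, by unfold K0; omega⟩⟩
    exact SimpleGraph.Connected.mk fun u v => (reach u.1 u.2).trans (reach v.1 v.2).symm
  · -- the edges are in bijection with the nonzero vertices
    let e : {i : Fin K0 // 0 < i.val} → tree.edgeSet := fun i =>
      ⟨s(i.1, ⟨(i.1.val - 1) / 9, by have := i.1.2; omega⟩), Or.inl ⟨i.2, rfl⟩⟩
    have he : Function.Bijective e := by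
      constructor
      · intro i j h
        have h1 : s(i.1, (⟨(i.1.val - 1) / 9, by have := i.1.2; omega⟩ : Fin K0)) =
            s(j.1, (⟨(j.1.val - 1) / 9, by have := j.1.2; omega⟩ : Fin K0)) := congrArg Subtype.val h
        rw [Sym2.eq_iff] at h1
        rcases h1 with ⟨h2, -⟩ | ⟨h2, h3⟩
        · exact Subtype.ext h2
        · exfalso
          have h4 := congrArg Fin.val h2
          have h5 := congrArg Fin.val h3
          simp only at h4 h5
          have := i.2
          have := j.2
          omega
      · rintro ⟨x, hx⟩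
        induction x using Sym2.ind with
        | _ a b =>
          rcases hx with ⟨h1, h2⟩ | ⟨h1, h2⟩
          · refine ⟨⟨a, h1⟩, Subtype.ext ?_⟩
            show s(a, _) = s(a, b)
            rw [Sym2.eq_iff]
            exact Or.inl ⟨rfl, Fin.ext h2⟩
          · refine ⟨⟨b, h1⟩, Subtype.ext ?_⟩
            show s(b, _) = s(a, b)
            rw [Sym2.eq_iff]
            exact Or.inr ⟨rfl, Fin.ext h2⟩
    rw [← Nat.card_eq_of_bijective e he]
    have h1 : Nat.card {i : Fin K0 // 0 < i.val} + 1 = K0 := by
      rw [Nat.card_eq_fintype_card, Fintype.card_subtype]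
      have h2 : (Finset.univ.filter (fun i : Fin K0 => 0 < i.val)) =
          Finset.univ.erase (⟨0, by unfold K0; omega⟩ : Fin K0) := by
        ext i
        rw [Finset.mem_filter, Finset.mem_erase]
        constructor
        · rintro ⟨h3, h4⟩
          exact ⟨fun h5 => by rw [h5] at h4; simp at h4, h3⟩
        · rintro ⟨h3, h4⟩
          refine ⟨h4, ?_⟩
          by_contra h5
          apply h3
          apply Fin.ext
          show i.val = 0
          omega
      rw [h2, Finset.card_erase_of_mem (Finset.mem_univ _), Finset.card_univ, Fintype.card_fin]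
      unfold K0
      omega
    rw [h1, Nat.card_eq_fintype_card, Fintype.card_fin]

/-- The colour of a number: the parity of its depth. -/
def col : ℕ → Bool
  | 0 => false
  | (n + 1) => !(col (n / 9))
decreasing_by omega

lemma col_TA {i j : ℕ} (h : TA i j) : col i ≠ col j := by
  have key : ∀ i j : ℕ, 0 < i → (i - 1) / 9 = j → col i ≠ col j := by
    intro i j h1 h2
    obtain ⟨n, rfl⟩ : ∃ n, i = n + 1 := ⟨i - 1, by omega⟩
    rw [col, ← h2]
    simp
  rcases h with ⟨h1, h2⟩ | ⟨h1, h2⟩
  · exact key i j h1 h2
  · exact (key j i h1 h2).symm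

lemma odd_dist (u v : Fin K0) : Odd (tree.dist u v) ↔ col u.val ≠ col v.val := by
  let c : tree.Coloring Bool := SimpleGraph.Coloring.mk (fun i => col i.val) (fun {a b} h => col_TA h)
  obtain ⟨p, hp⟩ := tree_isTree.connected.exists_walk_length_eq_dist u v
  rw [← hp]
  have h1 := c.odd_length_iff_not_congr p
  rw [h1]
  show (¬ col u.val = true ↔ col v.val = true) ↔ _
  cases col u.val <;> cases col v.val <;> simp

end Pool.Agent.Y419.Speed
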