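import Pool.Agent.Y419.Speed.Core
import Pool.Agent.Y419.Speed.Tree

/-!
# The host graph minus a good relation contains neither the tree nor its bipartite complement
-/

set_option autoImplicit false

namespace Pool.Agent.Y419.Speed

/-- The properties of the removed relation. -/
structure Good (R : ℕ × ℕ → ℕ × ℕ → Prop) : Prop where
  anti : ∀ a b b', R a b → R a b' → b.1 ≤ b'.1 → b.2 ≤ b'.2 → b = b'
  xa : ∀ (a : ℕ × ℕ) (b : Fin 3 → ℕ × ℕ), Function.Injective b → (∀ i, R a (b i)) →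
    (∀ i, ∃ a', a' ≠ a ∧ R a' (b i) ∧ ∀ j, SL a' (b j)) → False
  xb : ∀ (b : ℕ × ℕ) (a : Fin 3 → ℕ × ℕ), Function.Injective a → (∀ i, R (a i) b) →
    (∀ i, ∃ b', b' ≠ b ∧ R (a i) b' ∧ ∀ j, SL (a j) b') → False

/-- Adjacency in the host graph: dominance minus `R`. -/
def hadj (R : ℕ × ℕ → ℕ × ℕ → Prop) (x y : Bool × ℕ × ℕ) : Prop :=
  (x.1 = false ∧ y.1 = true ∧ SL x.2 y.2 ∧ ¬ R x.2 y.2) ∨
    (y.1 = false ∧ x.1 = true ∧ SL y.2 x.2 ∧ ¬ R y.2 x.2)

lemma hadj_lo_hi {R : ℕ × ℕ → ℕ × ℕ → Prop} {x y : Bool × ℕ × ℕ} (hx : x.1 = false)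
    (hy : y.1 = true) : hadj R x y ↔ SL x.2 y.2 ∧ ¬ R x.2 y.2 := by
  unfold hadj
  rw [hx, hy]
  simp

lemma hadj_side {R : ℕ × ℕ → ℕ × ℕ → Prop} {x y : Bool × ℕ × ℕ} (h : hadj R x y) :
    x.1 ≠ y.1 := by
  rcases h with ⟨h1, h2, -⟩ | ⟨h1, h2, -⟩ <;> rw [h1, h2] <;> decide

lemma SL.trans {a b c : ℕ × ℕ} (h : SL a b) (h' : SL b c) : SL a c :=
  ⟨h.1.trans h'.1, h.2.trans h'.2⟩

section TheoremA

variable {R : ℕ × ℕ → ℕ × ℕ → Prop} {f : ℕ → Bool × ℕ × ℕ}
  (hR : Good R) (hinj : ∀ i j, i < K0 → j < K0 → f i = f j → i = j)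
  (hf : ∀ i j, i < K0 → j < K0 → (hadj R (f i) (f j) ↔ TA i j))

include hinj in
lemma pos_ne {i j : ℕ} (hi : i < K0) (hj : j < K0) (hs : (f i).1 = (f j).1) (h : i ≠ j) :
    (f i).2 ≠ (f j).2 := fun h2 => h (hinj i j hi hj (Prod.ext hs h2))

include hf in
lemma sl_of_TA {i j : ℕ} (hi : i < K0) (hj : j < K0) (h1 : (f i).1 = false) (h2 : (f j).1 = true)
    (h : TA i j) : SL (f i).2 (f j).2 :=
  ((hadj_lo_hi h1 h2).1 ((hf i j hi hj).2 h)).1

include hf in
lemma r_of_not_TA {i j : ℕ} (hi : i < K0) (hj : j < K0) (h1 : (f i).1 = false)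
    (h2 : (f j).1 = true) (h : ¬ TA i j) (h3 : SL (f i).2 (f j).2) : R (f i).2 (f j).2 := by
  by_contra hcon
  exact h ((hf i j hi hj).1 ((hadj_lo_hi h1 h2).2 ⟨h3, hcon⟩))

include hf in
lemma side_child {i j : ℕ} (hi : i < K0) (hj : j < K0) (h : TA i j) {s : Bool}
    (h1 : (f j).1 = s) : (f i).1 = !s := by
  have h2 := hadj_side ((hf i j hi hj).2 h)
  rw [h1] at h2
  revert h2
  cases (f i).1 <;> cases s <;> simp

include hR hinj hf in
/-- A vertex in the upper class. -/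
lemma up (c : ℕ) (m : Fin 5 → ℕ) (hm : Function.Injective m) (hc : c < K0) (hcs : (f c).1 = true)
    (hmc : ∀ i, 0 < m i ∧ (m i - 1) / 9 = c) (hmK : ∀ i, m i < K0) :
    ∃ i, ∀ β : Fin 5 → ℕ, Function.Injective β → (∀ t, 0 < β t ∧ (β t - 1) / 9 = m i) →
      (∀ t, β t < K0) → ∃ t, SL (f (β t)).2 (f c).2 := by
  have hms : ∀ i, (f (m i)).1 = false := fun i =>
    side_child hf (hmK i) hc (Or.inl (hmc i)) hcs
  obtain ⟨i, hi⟩ := core (fun i => (f (m i)).2) (f c).2 (fun i =>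
    sl_of_TA hf (hmK i) hc (hms i) hcs (Or.inl (hmc i)))
  refine ⟨i, fun β hβ hβm hβK => ?_⟩
  have hβs : ∀ t, (f (β t)).1 = true := fun t =>
    side_child hf (hβK t) (hmK i) (Or.inl (hβm t)) (hms i)
  rcases hi (fun t => (f (β t)).2) (fun t =>
    sl_of_TA hf (hmK i) (hβK t) (hms i) (hβs t) (Or.inr (hβm t))) with h | h
  · exact h
  exfalso
  obtain ⟨j, j', h1, h2, h3, g, hg, hg2⟩ := h
  have hnot : ∀ (k : Fin 5) (t : Fin 5), k ≠ i → ¬ TA (m k) (β t) := by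
    intro k t hk
    have h4 := hmc k
    have h5 := hmc i
    have h6 := hβm t
    have h7 : m k ≠ m i := fun h => hk (hm h)
    rintro (⟨h8, h9⟩ | ⟨h8, h9⟩) <;> omega
  refine hR.xa (f (m j)).2 (fun t => (f (β (g t))).2) ?_ ?_ ?_
  · intro t t' h
    by_contra hne
    exact pos_ne hinj (hβK _) (hβK _) ((hβs _).trans (hβs _).symm)
      (fun h' => hne (hg (hβ h'))) h
  · intro t
    exact r_of_not_TA hf (hmK j) (hβK _) (hms j) (hβs _) (hnot j _ h2) (hg2 t).1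
  · intro t
    refine ⟨(f (m j')).2, ?_, ?_, fun t' => (hg2 t').2⟩
    · exact pos_ne hinj (hmK _) (hmK _) ((hms _).trans (hms _).symm) (fun h' => h1 (hm h').symm)
    · exact r_of_not_TA hf (hmK j') (hβK _) (hms j') (hβs _) (hnot j' _ h3) (hg2 t).2

include hR hinj hf in
/-- A vertex in the lower class. -/
lemma down (c : ℕ) (m : Fin 5 → ℕ) (hm : Function.Injective m) (hc : c < K0)
    (hcs : (f c).1 = false)
    (hmc : ∀ i, 0 < m i ∧ (m i - 1) / 9 = c) (hmK : ∀ i, m i < K0) :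
    ∃ i, ∀ β : Fin 5 → ℕ, Function.Injective β → (∀ t, 0 < β t ∧ (β t - 1) / 9 = m i) →
      (∀ t, β t < K0) → ∃ t, SL (f c).2 (f (β t)).2 := by
  have hms : ∀ i, (f (m i)).1 = true := fun i =>
    side_child hf (hmK i) hc (Or.inl (hmc i)) hcs
  obtain ⟨i, hi⟩ := core_dual (fun i => (f (m i)).2) (f c).2 (fun i =>
    sl_of_TA hf hc (hmK i) hcs (hms i) (Or.inr (hmc i)))
  refine ⟨i, fun β hβ hβm hβK => ?_⟩
  have hβs : ∀ t, (f (β t)).1 = false := fun t =>
    side_child hf (hβK t) (hmK i) (Or.inl (hβm t)) (hms i)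
  rcases hi (fun t => (f (β t)).2) (fun t =>
    sl_of_TA hf (hβK t) (hmK i) (hβs t) (hms i) (Or.inl (hβm t))) with h | h
  · exact h
  exfalso
  obtain ⟨j, j', h1, h2, h3, g, hg, hg2⟩ := h
  have hnot : ∀ (k : Fin 5) (t : Fin 5), k ≠ i → ¬ TA (β t) (m k) := by
    intro k t hk
    have h4 := hmc k
    have h5 := hmc i
    have h6 := hβm t
    have h7 : m k ≠ m i := fun h => hk (hm h)
    rintro (⟨h8, h9⟩ | ⟨h8, h9⟩) <;> omega
  refine hR.xb (f (m j)).2 (fun t => (f (β (g t))).2) ?_ ?_ ?_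
  · intro t t' h
    by_contra hne
    exact pos_ne hinj (hβK _) (hβK _) ((hβs _).trans (hβs _).symm)
      (fun h' => hne (hg (hβ h'))) h
  · intro t
    exact r_of_not_TA hf (hβK _) (hmK j) (hβs _) (hms j) (hnot j _ h2) (hg2 t).1
  · intro t
    refine ⟨(f (m j')).2, ?_, ?_, fun t' => (hg2 t').2⟩
    · exact pos_ne hinj (hmK _) (hmK _) ((hms _).trans (hms _).symm) (fun h' => h1 (hm h').symm)
    · exact r_of_not_TA hf (hβK _) (hmK j') (hβs _) (hms j') (hnot j' _ h3) (hg2 t).2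

/-- Five of nine. -/
lemma five_of_nine (P : Fin 9 → Prop)
    (h : ∀ g : Fin 5 → Fin 9, Function.Injective g → ∃ t, P (g t)) :
    ∃ g : Fin 5 → Fin 9, Function.Injective g ∧ ∀ t, P (g t) := by
  classical
  have key : ∀ (Q : Fin 9 → Prop) [DecidablePred Q], 5 ≤ (Finset.univ.filter Q).card →
      ∃ g : Fin 5 → Fin 9, Function.Injective g ∧ ∀ t, Q (g t) := by
    intro Q _ hQ
    obtain ⟨s, hs, hc⟩ := Finset.exists_subset_card_eq hQ
    refine ⟨s.orderEmbOfFin hc, (s.orderEmbOfFin hc).injective, fun t => ?_⟩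
    have h1 := hs (Finset.orderEmbOfFin_mem s hc t)
    rw [Finset.mem_filter] at h1
    exact h1.2
  rcases Nat.lt_or_ge (Finset.univ.filter P).card 5 with h1 | h1
  · exfalso
    have h2 : 5 ≤ (Finset.univ.filter (fun t => ¬ P t)).card := by
      have h3 := Finset.card_filter_add_card_filter_not (s := (Finset.univ : Finset (Fin 9))) P
      rw [Finset.card_univ, Fintype.card_fin] at h3
      omega
    obtain ⟨g, hg, hg2⟩ := key (fun t => ¬ P t) h2
    obtain ⟨t, ht⟩ := h g hg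
    exact hg2 t ht
  · exact key P h1

include hR hinj hf in
/-- The host graph does not contain the tree. -/
theorem no_tree : False := by
  -- a root in the lower class
  have hK : K0 = 1000000 := rfl
  obtain ⟨r, hr1, hrs⟩ : ∃ r, r ≤ 1 ∧ (f r).1 = false := by
    by_cases h : (f 0).1 = false
    · exact ⟨0, by omega, h⟩
    · refine ⟨1, le_refl _, ?_⟩
      have h1 : (f 0).1 = true := by simpa using h
      exact side_child hf (by omega) (by omega) (Or.inl ⟨by omega, by omega⟩) h1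
  -- step 1
  obtain ⟨i1, h1⟩ := down hR hinj hf r (fun i => 9 * r + 1 + i) (by
    intro i j h; apply Fin.ext; simp only at h; omega) (by omega) hrs
    (fun i => ⟨by omega, by omega⟩) (fun i => by omega)
  obtain ⟨b, hb⟩ : ∃ b, b = 9 * r + 1 + (i1 : ℕ) := ⟨_, rfl⟩
  beta_reduce at h1
  rw [← hb] at h1
  have hbs : (f b).1 = true := side_child hf (by omega) (by omega)
    (Or.inl ⟨by omega, by omega⟩ : TA b r) hrs
  obtain ⟨t1, ht1⟩ := h1 (fun i => 9 * b + 1 + i) (by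
    intro i j h; apply Fin.ext; simp only at h; omega)
    (fun i => ⟨by omega, by omega⟩) (fun i => by omega)
  obtain ⟨a', ha'⟩ : ∃ a', a' = 9 * b + 1 + (t1 : ℕ) := ⟨_, rfl⟩
  beta_reduce at ht1
  rw [← ha'] at ht1
  have ha's : (f a').1 = false := side_child hf (by omega) (by omega)
    (Or.inl ⟨by omega, by omega⟩ : TA a' b) hbs
  -- step 2
  obtain ⟨i2, h2⟩ := down hR hinj hf a' (fun i => 9 * a' + 1 + i) (by
    intro i j h; apply Fin.ext; simp only at h; omega) (by omega) ha's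
    (fun i => ⟨by omega, by omega⟩) (fun i => by omega)
  obtain ⟨b', hb'⟩ : ∃ b', b' = 9 * a' + 1 + (i2 : ℕ) := ⟨_, rfl⟩
  beta_reduce at h2
  rw [← hb'] at h2
  have hb's : (f b').1 = true := side_child hf (by omega) (by omega)
    (Or.inl ⟨by omega, by omega⟩ : TA b' a') ha's
  -- step 3
  obtain ⟨g, hg, hg2⟩ := five_of_nine (fun i : Fin 9 => SL (f a').2 (f (9 * b' + 1 + (i : ℕ))).2)
    (fun g hg => h2 (fun i => 9 * b' + 1 + (g i : ℕ)) (by
      intro i j h; apply hg; apply Fin.ext; simp only at h; omega)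
      (fun i => ⟨by omega, by omega⟩) (fun i => by omega))
  -- step 4
  obtain ⟨i3, h3⟩ := up hR hinj hf b' (fun i => 9 * b' + 1 + (g i : ℕ)) (by
    intro i j h; apply hg; apply Fin.ext; simp only at h; omega) (by omega) hb's
    (fun i => ⟨by omega, by omega⟩) (fun i => by omega)
  obtain ⟨a'', ha''⟩ : ∃ a'', a'' = 9 * b' + 1 + (g i3 : ℕ) := ⟨_, rfl⟩
  have hg3 := hg2 i3
  beta_reduce at h3 hg3
  rw [← ha''] at h3 hg3
  have ha''s : (f a'').1 = false := side_child hf (by omega) (by omega)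
    (Or.inl ⟨by omega, by omega⟩ : TA a'' b') hb's
  obtain ⟨t2, ht2⟩ := h3 (fun i => 9 * a'' + 1 + i) (by
    intro i j h; apply Fin.ext; simp only at h; omega)
    (fun i => ⟨by omega, by omega⟩) (fun i => by omega)
  obtain ⟨β, hβ⟩ : ∃ β, β = 9 * a'' + 1 + (t2 : ℕ) := ⟨_, rfl⟩
  beta_reduce at ht2
  rw [← hβ] at ht2
  have hβs : (f β).1 = true := side_child hf (by omega) (by omega)
    (Or.inl ⟨by omega, by omega⟩ : TA β a'') ha''s
  -- the end
  have e1 : SL (f a').2 (f b').2 := sl_of_TA hf (by omega) (by omega) ha's hb's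
    (Or.inr ⟨by omega, by omega⟩)
  have e2 : SL (f a'').2 (f β).2 := sl_of_TA hf (by omega) (by omega) ha''s hβs
    (Or.inr ⟨by omega, by omega⟩)
  have e3 : SL (f r).2 (f b').2 := ht1.trans e1
  have e4 : SL (f r).2 (f β).2 := (ht1.trans hg3).trans e2
  have e5 : R (f r).2 (f b').2 := r_of_not_TA hf (by omega) (by omega) hrs hb's
    (by rintro (⟨h8, h9⟩ | ⟨h8, h9⟩) <;> omega) e3
  have e6 : R (f r).2 (f β).2 := r_of_not_TA hf (by omega) (by omega) hrs hβs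
    (by rintro (⟨h8, h9⟩ | ⟨h8, h9⟩) <;> omega) e4
  have e7 := hR.anti _ _ _ e6 e5 ht2.1.le ht2.2.le
  have e8 := ht2.1
  rw [e7] at e8
  exact lt_irrefl _ e8

end TheoremA

end Pool.Agent.Y419.Speed
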