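import Pool.Agent.Y419.Speed.Comp

/-!
# Relations made of matchings at hyperbolic scales are good
-/

set_option autoImplicit false

namespace Pool.Agent.Y419.Speed

/-- The pair `(a, b)` has scale `l`: in the first coordinate the highest binary digit where `a` and
`b` differ is the digit number `l`, in the second coordinate it is the digit number `M - l`. -/
def Sc (M l : ℕ) (a b : ℕ × ℕ) : Prop :=
  l ≤ M ∧ a.1 / 2 ^ (l + 1) = b.1 / 2 ^ (l + 1) ∧ a.1 / 2 ^ l < b.1 / 2 ^ l ∧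
    a.2 / 2 ^ (M - l + 1) = b.2 / 2 ^ (M - l + 1) ∧ a.2 / 2 ^ (M - l) < b.2 / 2 ^ (M - l)

lemma div_up {x y e e' : ℕ} (h : e ≤ e') (hx : x / 2 ^ e = y / 2 ^ e) : x / 2 ^ e' = y / 2 ^ e' := by
  obtain ⟨d, rfl⟩ := Nat.exists_eq_add_of_le h
  rw [pow_add, ← Nat.div_div_eq_div_mul, ← Nat.div_div_eq_div_mul, hx]

lemma lt_of_div {x y e : ℕ} (h : x / 2 ^ e < y / 2 ^ e) : x < y := by
  by_contra hcon
  push Not at hcon
  exact absurd (Nat.div_le_div_right (c := 2 ^ e) hcon) (not_le.2 h)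

lemma Sc.sl {M l : ℕ} {a b : ℕ × ℕ} (h : Sc M l a b) : SL a b :=
  ⟨lt_of_div h.2.2.1, lt_of_div h.2.2.2.2⟩

lemma Sc.unique {M l l' : ℕ} {a b : ℕ × ℕ} (h : Sc M l a b) (h' : Sc M l' a b) : l = l' := by
  rcases lt_trichotomy l l' with h1 | h1 | h1
  · exact absurd (div_up h1 h.2.1) h'.2.2.1.ne
  · exact h1
  · exact absurd (div_up h1 h'.2.1) h.2.2.1.ne

lemma middle (l : Fin 3 → ℕ) (hl : Function.Injective l) : ∃ i1 i2 i3, l i1 < l i2 ∧ l i2 < l i3 := by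
  have h01 : l 0 ≠ l 1 := fun h => absurd (hl h) (by decide)
  have h02 : l 0 ≠ l 2 := fun h => absurd (hl h) (by decide)
  have h12 : l 1 ≠ l 2 := fun h => absurd (hl h) (by decide)
  rcases lt_or_gt_of_ne h01 with a | a <;> rcases lt_or_gt_of_ne h02 with b | b <;>
    rcases lt_or_gt_of_ne h12 with c | c
  · exact ⟨0, 1, 2, a, c⟩
  · exact ⟨0, 2, 1, b, c⟩
  · omega
  · exact ⟨2, 0, 1, b, a⟩
  · exact ⟨1, 0, 2, a, b⟩
  · omega
  · exact ⟨1, 2, 0, c, b⟩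
  · exact ⟨2, 1, 0, c, a⟩

theorem good_of_scales {M : ℕ} {R : ℕ × ℕ → ℕ × ℕ → Prop} (h1 : ∀ a b, R a b → ∃ l, Sc M l a b)
    (h2 : ∀ l a b b', R a b → R a b' → Sc M l a b → Sc M l a b' → b = b')
    (h3 : ∀ l a a' b, R a b → R a' b → Sc M l a b → Sc M l a' b → a = a') : Good R := by
  constructor
  · intro a b b' hb hb' e1 e2
    obtain ⟨l, hl⟩ := h1 a b hb
    obtain ⟨l', hl'⟩ := h1 a b' hb'
    rcases lt_trichotomy l l' with h | h | h
    · exfalso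
      have e3 : b'.2 / 2 ^ (M - l) = a.2 / 2 ^ (M - l) :=
        (div_up (by have := hl'.1; omega) hl'.2.2.2.1).symm
      have e4 : b'.2 < b.2 := lt_of_div (e := M - l) (by rw [e3]; exact hl.2.2.2.2)
      omega
    · subst h
      exact h2 l a b b' hb hb' hl hl'
    · exfalso
      have e3 : b'.1 / 2 ^ l = a.1 / 2 ^ l := (div_up (by omega) hl'.2.1).symm
      have e4 : b'.1 < b.1 := lt_of_div (e := l) (by rw [e3]; exact hl.2.2.1)
      omega
  · intro a b hb hR ha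
    choose l hl using fun i => h1 a (b i) (hR i)
    have hinj : Function.Injective l := by
      intro i j h
      apply hb
      exact h2 (l i) a _ _ (hR i) (hR j) (hl i) (by rw [h]; exact hl j)
    obtain ⟨i1, i2, i3, m1, m2⟩ := middle l hinj
    obtain ⟨a', n1, n2, n3⟩ := ha i2
    obtain ⟨l', hl'⟩ := h1 a' (b i2) n2
    have hM3 := (hl i3).1
    rcases lt_trichotomy l' (l i2) with h | h | h
    · have e1 : a'.1 / 2 ^ (l i2) = (b i2).1 / 2 ^ (l i2) := div_up (by omega) hl'.2.1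
      have e2 : a.1 / 2 ^ (l i2) = (b i1).1 / 2 ^ (l i2) := div_up (by omega) (hl i1).2.1
      have e3 : (b i1).1 < a'.1 := lt_of_div (e := l i2) (by rw [e1, ← e2]; exact (hl i2).2.2.1)
      have := (n3 i1).1
      omega
    · subst h
      exact n1 (h3 _ _ _ _ n2 (hR i2) hl' (hl i2))
    · have hM' := hl'.1
      have e1 : a'.2 / 2 ^ (M - l i2) = (b i2).2 / 2 ^ (M - l i2) :=
        div_up (by omega) hl'.2.2.2.1
      have e2 : a.2 / 2 ^ (M - l i2) = (b i3).2 / 2 ^ (M - l i2) :=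
        div_up (by omega) (hl i3).2.2.2.1
      have e3 : (b i3).2 < a'.2 :=
        lt_of_div (e := M - l i2) (by rw [e1, ← e2]; exact (hl i2).2.2.2.2)
      have := (n3 i3).2
      omega
  · intro b a ha hR hb
    choose l hl using fun i => h1 (a i) b (hR i)
    have hinj : Function.Injective l := by
      intro i j h
      apply ha
      exact h3 (l i) _ _ b (hR i) (hR j) (hl i) (by rw [h]; exact hl j)
    obtain ⟨i1, i2, i3, m1, m2⟩ := middle l hinj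
    obtain ⟨b', n1, n2, n3⟩ := hb i2
    obtain ⟨l', hl'⟩ := h1 (a i2) b' n2
    have hM3 := (hl i3).1
    rcases lt_trichotomy l' (l i2) with h | h | h
    · have e1 : (a i2).1 / 2 ^ (l i2) = b'.1 / 2 ^ (l i2) := div_up (by omega) hl'.2.1
      have e2 : (a i1).1 / 2 ^ (l i2) = b.1 / 2 ^ (l i2) := div_up (by omega) (hl i1).2.1
      have e3 : b'.1 < (a i1).1 := lt_of_div (e := l i2) (by rw [← e1, e2]; exact (hl i2).2.2.1)
      have := (n3 i1).1
      omega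
    · subst h
      exact n1 (h2 _ _ _ _ n2 (hR i2) hl' (hl i2))
    · have hM' := hl'.1
      have e1 : (a i2).2 / 2 ^ (M - l i2) = b'.2 / 2 ^ (M - l i2) :=
        div_up (by omega) hl'.2.2.2.1
      have e2 : (a i3).2 / 2 ^ (M - l i2) = b.2 / 2 ^ (M - l i2) :=
        div_up (by omega) (hl i3).2.2.2.1
      have e3 : b'.2 < (a i3).2 :=
        lt_of_div (e := M - l i2) (by rw [← e1, e2]; exact (hl i2).2.2.2.2)
      have := (n3 i3).2
      omega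

/-! ### The relations given by permutations -/

/-- The lower point number `k` of the cell number `s` at scale `l`. -/
def PA (M l s k : ℕ) : ℕ × ℕ :=
  ((s / 2 ^ l) * 2 ^ (l + 1) + k % 2 ^ l, (s % 2 ^ l) * 2 ^ (M - l + 1) + k / 2 ^ l)

/-- The upper point number `k` of the cell number `s` at scale `l`. -/
def PB (M l s k : ℕ) : ℕ × ℕ :=
  ((s / 2 ^ l) * 2 ^ (l + 1) + (2 ^ l + k % 2 ^ l),
    (s % 2 ^ l) * 2 ^ (M - l + 1) + (2 ^ (M - l) + k / 2 ^ l))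

lemma dm1 {q e r : ℕ} (hr : r < 2 ^ (e + 1)) : (q * 2 ^ (e + 1) + r) / 2 ^ (e + 1) = q := by
  rw [mul_comm, Nat.mul_add_div (by positivity), Nat.div_eq_of_lt hr, add_zero]

lemma dm2 {q e r : ℕ} (hr : r < 2 ^ e) : (q * 2 ^ (e + 1) + r) / 2 ^ e = 2 * q := by
  have h : q * 2 ^ (e + 1) + r = 2 ^ e * (2 * q) + r := by ring
  rw [h, Nat.mul_add_div (by positivity), Nat.div_eq_of_lt hr, add_zero]

lemma dm3 {q e r : ℕ} (hr : r < 2 ^ e) : (q * 2 ^ (e + 1) + (2 ^ e + r)) / 2 ^ e = 2 * q + 1 := by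
  have h : q * 2 ^ (e + 1) + (2 ^ e + r) = 2 ^ e * (2 * q + 1) + r := by ring
  rw [h, Nat.mul_add_div (by positivity), Nat.div_eq_of_lt hr, add_zero]

lemma kdiv {M l k : ℕ} (hl : l ≤ M) (hk : k < 2 ^ M) : k / 2 ^ l < 2 ^ (M - l) := by
  rw [Nat.div_lt_iff_lt_mul (by positivity), ← pow_add]
  have : M - l + l = M := by omega
  rw [this]
  exact hk

lemma sc_PAB {M l s k k' : ℕ} (hl : l ≤ M) (hk : k < 2 ^ M) (hk' : k' < 2 ^ M) :
    Sc M l (PA M l s k) (PB M l s k') := by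
  have h1 : k % 2 ^ l < 2 ^ l := Nat.mod_lt _ (by positivity)
  have h1' : k' % 2 ^ l < 2 ^ l := Nat.mod_lt _ (by positivity)
  have h2 := kdiv hl hk
  have h2' := kdiv hl hk'
  have h3 : 2 ^ (l + 1) = 2 * 2 ^ l := by ring
  have h4 : 2 ^ (M - l + 1) = 2 * 2 ^ (M - l) := by ring
  refine ⟨hl, ?_, ?_, ?_, ?_⟩
  · unfold PA PB
    rw [dm1 (by omega), dm1 (by omega)]
  · unfold PA PB
    rw [dm2 h1, dm3 h1']
    omega
  · unfold PA PB
    rw [dm1 (by omega), dm1 (by omega)]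
  · unfold PA PB
    rw [dm2 h2, dm3 h2']
    omega

lemma split {q q' e r r' : ℕ} (hr : r < 2 ^ (e + 1)) (hr' : r' < 2 ^ (e + 1))
    (h : q * 2 ^ (e + 1) + r = q' * 2 ^ (e + 1) + r') : q = q' ∧ r = r' := by
  have h1 : q = q' := by
    rw [← dm1 (q := q) hr, h, dm1 hr']
  subst h1
  exact ⟨rfl, by omega⟩

lemma eq_of_div_mod {x y m : ℕ} (h1 : x / m = y / m) (h2 : x % m = y % m) : x = y := by
  rw [← Nat.div_add_mod x m, ← Nat.div_add_mod y m, h1, h2]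

lemma PA_inj {M l s k s' k' : ℕ} (hl : l ≤ M) (hk : k < 2 ^ M) (hk' : k' < 2 ^ M)
    (h : PA M l s k = PA M l s' k') : s = s' ∧ k = k' := by
  have h1 : k % 2 ^ l < 2 ^ l := Nat.mod_lt _ (by positivity)
  have h1' : k' % 2 ^ l < 2 ^ l := Nat.mod_lt _ (by positivity)
  have h2 := kdiv hl hk
  have h2' := kdiv hl hk'
  have h3 : 2 ^ (l + 1) = 2 * 2 ^ l := by ring
  have h4 : 2 ^ (M - l + 1) = 2 * 2 ^ (M - l) := by ring
  unfold PA at h
  rw [Prod.mk.injEq] at h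
  obtain ⟨e1, e2⟩ := split (by omega) (by omega) h.1
  obtain ⟨e3, e4⟩ := split (by omega) (by omega) h.2
  exact ⟨eq_of_div_mod e1 e3, eq_of_div_mod e4 e2⟩

lemma PB_inj {M l s k s' k' : ℕ} (hl : l ≤ M) (hk : k < 2 ^ M) (hk' : k' < 2 ^ M)
    (h : PB M l s k = PB M l s' k') : s = s' ∧ k = k' := by
  have h1 : k % 2 ^ l < 2 ^ l := Nat.mod_lt _ (by positivity)
  have h1' : k' % 2 ^ l < 2 ^ l := Nat.mod_lt _ (by positivity)
  have h2 := kdiv hl hk
  have h2' := kdiv hl hk'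
  have h3 : 2 ^ (l + 1) = 2 * 2 ^ l := by ring
  have h4 : 2 ^ (M - l + 1) = 2 * 2 ^ (M - l) := by ring
  unfold PB at h
  rw [Prod.mk.injEq] at h
  obtain ⟨e1, e2⟩ := split (by omega) (by omega) h.1
  obtain ⟨e3, e4⟩ := split (by omega) (by omega) h.2
  exact ⟨eq_of_div_mod e1 e3, eq_of_div_mod (m := 2 ^ l) (by omega) (by omega)⟩

/-- The parameters. -/
abbrev Par (M : ℕ) : Type := Fin (M + 1) → Fin (2 ^ M) → Equiv.Perm (Fin (2 ^ M))

/-- The relation given by the parameters. -/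
def RR (M : ℕ) (ω : Par M) (a b : ℕ × ℕ) : Prop :=
  ∃ (l : Fin (M + 1)) (s k : Fin (2 ^ M)), a = PA M l s k ∧ b = PB M l s (ω l s k)

lemma sc_RR {M : ℕ} (ω : Par M) (l : Fin (M + 1)) (s k : Fin (2 ^ M)) :
    Sc M l (PA M l s k) (PB M l s (ω l s k)) := sc_PAB (by omega) k.2 (ω l s k).2

theorem good_RR {M : ℕ} (ω : Par M) : Good (RR M ω) := by
  refine good_of_scales (M := M) ?_ ?_ ?_
  · rintro a b ⟨l, s, k, rfl, rfl⟩
    exact ⟨l, sc_RR ω l s k⟩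
  · rintro l0 a b b' ⟨l, s, k, rfl, rfl⟩ ⟨l', s', k', h1, rfl⟩ h2 h3
    have e1 : (l : ℕ) = l0 := (sc_RR ω l s k).unique h2
    have e2 : (l' : ℕ) = l0 := by
      rw [h1] at h3
      exact (sc_RR ω l' s' k').unique h3
    obtain rfl : l = l' := Fin.ext (by omega)
    obtain ⟨e3, e4⟩ := PA_inj (by omega) k.2 k'.2 h1
    obtain rfl : s = s' := Fin.ext e3
    obtain rfl : k = k' := Fin.ext e4
    rfl
  · rintro l0 a a' b ⟨l, s, k, rfl, rfl⟩ ⟨l', s', k', rfl, h1⟩ h2 h3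
    have e1 : (l : ℕ) = l0 := (sc_RR ω l s k).unique h2
    have e2 : (l' : ℕ) = l0 := by
      rw [h1] at h3
      exact (sc_RR ω l' s' k').unique h3
    obtain rfl : l = l' := Fin.ext (by omega)
    obtain ⟨e3, e4⟩ := PB_inj (by omega) (ω l s k).2 (ω l s' k').2 h1
    obtain rfl : s = s' := Fin.ext e3
    have e5 : ω l s k = ω l s k' := Fin.ext e4
    obtain rfl : k = k' := (ω l s).injective e5
    rfl

/-- The relation determines the parameters. -/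
theorem RR_inj {M : ℕ} (ω ω' : Par M) (h : ∀ a b, RR M ω a b → RR M ω' a b) : ω = ω' := by
  funext l s
  ext k
  obtain ⟨l', s', k', h1, h2⟩ := h _ _ ⟨l, s, k, rfl, rfl⟩
  have e0 := sc_RR ω l s k
  rw [h1, h2] at e0
  have e1 := e0.unique (sc_RR ω' l' s' k')
  obtain rfl : l = l' := Fin.ext e1
  obtain ⟨e3, e4⟩ := PA_inj (by omega) k.2 k'.2 h1
  obtain rfl : s = s' := Fin.ext e3
  obtain rfl : k = k' := Fin.ext e4
  exact (PB_inj (by omega) (ω l s k).2 (ω' l s k).2 h2).2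

lemma bound_aux {q e r Q : ℕ} (hq : q < Q) (hr : r < 2 ^ (e + 1)) :
    q * 2 ^ (e + 1) + r < Q * 2 ^ (e + 1) := by
  have h1 : (q + 1) * 2 ^ (e + 1) ≤ Q * 2 ^ (e + 1) := Nat.mul_le_mul_right _ hq
  have h2 : (q + 1) * 2 ^ (e + 1) = q * 2 ^ (e + 1) + 2 ^ (e + 1) := by ring
  omega

lemma RR_bound {M : ℕ} {ω : Par M} {a b : ℕ × ℕ} (h : RR M ω a b) :
    a.1 < 2 ^ (M + 1) ∧ a.2 < 2 ^ (M + 1) ∧ b.1 < 2 ^ (M + 1) ∧ b.2 < 2 ^ (M + 1) := by
  obtain ⟨l, s, k, rfl, rfl⟩ := h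
  have hl : (l : ℕ) ≤ M := by omega
  obtain ⟨k', hk'⟩ : ∃ k', k' = ω l s k := ⟨_, rfl⟩
  rw [← hk']
  have h1 : (k : ℕ) % 2 ^ (l : ℕ) < 2 ^ (l : ℕ) := Nat.mod_lt _ (by positivity)
  have h1' : (k' : ℕ) % 2 ^ (l : ℕ) < 2 ^ (l : ℕ) := Nat.mod_lt _ (by positivity)
  have h1s : (s : ℕ) % 2 ^ (l : ℕ) < 2 ^ (l : ℕ) := Nat.mod_lt _ (by positivity)
  have h2 := kdiv hl k.2
  have h2' := kdiv hl k'.2
  have h2s := kdiv hl s.2
  have h3 : 2 ^ ((l : ℕ) + 1) = 2 * 2 ^ (l : ℕ) := by ring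
  have h4 : 2 ^ (M - (l : ℕ) + 1) = 2 * 2 ^ (M - (l : ℕ)) := by ring
  have h5 : 2 ^ (M - (l : ℕ)) * 2 ^ ((l : ℕ) + 1) = 2 ^ (M + 1) := by
    rw [← pow_add]; congr 1; omega
  have h6 : 2 ^ (l : ℕ) * 2 ^ (M - (l : ℕ) + 1) = 2 ^ (M + 1) := by
    rw [← pow_add]; congr 1; omega
  refine ⟨?_, ?_, ?_, ?_⟩
  · unfold PA
    rw [← h5]
    exact bound_aux h2s (by omega)
  · unfold PA
    rw [← h6]
    exact bound_aux h1s (by omega)
  · unfold PB
    rw [← h5]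
    exact bound_aux h2s (by omega)
  · unfold PB
    rw [← h6]
    exact bound_aux h1s (by omega)

end Pool.Agent.Y419.Speed
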